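import Pool.Agent.R776.SympPaths

/-!
# MP_ec5dc5_gt, Q1 (b), (c): the group `π₀` of the compactly supported symplectomorphisms of
`ℝ^{2n}` is abelian

For `φ, ψ` in the group `G = SympCt n` of compactly supported symplectomorphisms of the standard
`ℝ^{2n}` (direct limit of the `C^∞` topologies) the compositions `φ ∘ ψ` and `ψ ∘ φ` lie in the same
path component of `G`.
-/

set_option autoImplicit false

open Set Filter Topology
open scoped ContDiff NNReal

noncomputable section

namespace Pool.Agent.Results.MP_ec5dc5_gt.AbelianComponents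

open Pool.Agent.R776

variable {n : ℕ}

/-- The composition `φ ∘ ψ` of compactly supported symplectomorphisms. -/
def comp (φ ψ : SympCt n) : SympCt n where
  toFun x := φ.toFun (ψ.toFun x)
  invFun x := ψ.invFun (φ.invFun x)
  left_inv x := by rw [φ.left_inv, ψ.left_inv]
  right_inv x := by rw [ψ.right_inv, φ.right_inv]
  smooth := φ.smooth.comp ψ.smooth
  smooth_inv := ψ.smooth_inv.comp φ.smooth_inv
  symplectic x v w := by
    have h : HasFDerivAt (fun x => φ.toFun (ψ.toFun x))
        ((fderiv ℝ φ.toFun (ψ.toFun x)).comp (fderiv ℝ ψ.toFun x)) x :=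
      ((φ.smooth.differentiable (by simp)).differentiableAt.hasFDerivAt).comp x
        ((ψ.smooth.differentiable (by simp)).differentiableAt.hasFDerivAt)
    rw [h.fderiv]
    exact (φ.symplectic _ _ _).trans (ψ.symplectic _ _ _)
  compact_support := by
    obtain ⟨K, hK, h⟩ := φ.compact_support
    obtain ⟨L, hL, h'⟩ := ψ.compact_support
    refine ⟨K ∪ L, hK.union hL, fun x hx => ?_⟩
    rw [h' x fun hc => hx (Or.inr hc), h x fun hc => hx (Or.inl hc)]

/-- The translate of `φ` by `a`. -/
def shift (φ : SympCt n) (a : Phase n) : SympCt n := φ.conj a 1 one_ne_zero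

lemma shift_apply (φ : SympCt n) (a x : Phase n) :
    (shift φ a).toFun x = φ.toFun (a + x) - a := by
  simp [shift, SympCt.conj]

/-- Composition with `ψ` is compatible with translations of `φ`. -/
lemma joined_shift_comp (φ ψ : SympCt n) (a : Phase n) :
    Joined (comp φ ψ) (comp (shift φ a) ψ) ∧ Joined (comp ψ φ) (comp ψ (shift φ a)) := by
  obtain ⟨K, hK, hφ⟩ := φ.compact_support
  obtain ⟨L, hL, hψ⟩ := ψ.compact_support
  obtain ⟨R, hR⟩ := (hK.union hL).isBounded.subset_closedBall (0 : Phase n)
  have hfd : ∀ t : ℝ, ContDiff ℝ ∞ (fun x : Phase n => φ.toFun (t • a + x) - t • a) := fun t =>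
    (φ.smooth.comp (contDiff_const.add contDiff_id)).sub contDiff_const
  have hin : ContDiff ℝ ∞ (fun p : ℝ × Phase n => p.1 • a) := contDiff_fst.smul contDiff_const
  -- reparametrized so that the translation vector stays bounded
  set l : ℝ → ℝ := Real.smoothTransition with hl
  have hls : ContDiff ℝ ∞ l := Real.smoothTransition.contDiff
  have hla : ContDiff ℝ ∞ (fun p : ℝ × Phase n => l p.1 • a) :=
    (hls.comp contDiff_fst).smul contDiff_const
  have hbound : ∀ t x, x ∉ Metric.closedBall (0 : Phase n) (R + ‖a‖) →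
      φ.toFun (l t • a + x) - l t • a = x ∧ φ.invFun (l t • a + x) - l t • a = x ∧
      ψ.toFun x = x ∧ ψ.invFun x = x := by
    intro t x hx
    rw [mem_closedBall_zero_iff, not_le] at hx
    have h1 : ‖l t • a‖ ≤ ‖a‖ := by
      rw [norm_smul, Real.norm_of_nonneg (Real.smoothTransition.nonneg t)]
      have := mul_le_mul_of_nonneg_right (Real.smoothTransition.le_one t) (norm_nonneg a)
      rwa [one_mul] at this
    have h2 : l t • a + x ∉ K := fun h => by
      have h3 := hR (Or.inl h)
      rw [mem_closedBall_zero_iff] at h3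
      have h4 : ‖x‖ ≤ ‖l t • a + x‖ + ‖l t • a‖ := by
        calc ‖x‖ = ‖(l t • a + x) - l t • a‖ := by rw [add_sub_cancel_left]
          _ ≤ _ := norm_sub_le _ _
      linarith
    have h5 : x ∉ L := fun h => by
      have h3 := hR (Or.inr h)
      rw [mem_closedBall_zero_iff] at h3
      linarith [norm_nonneg a]
    refine ⟨by rw [hφ _ h2, add_sub_cancel_left], ?_, hψ x h5, ?_⟩
    · have h6 := φ.left_inv (l t • a + x)
      rw [hφ _ h2] at h6
      rw [h6, add_sub_cancel_left]
    · have h6 := ψ.left_inv x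
      rwa [hψ _ h5] at h6
  have h0 : l 0 = 0 := Real.smoothTransition.zero
  have h1 : l 1 = 1 := Real.smoothTransition.one
  constructor
  · refine joined_of_family (K := Metric.closedBall 0 (R + ‖a‖)) (isCompact_closedBall _ _)
      (Φ := fun p => φ.toFun (l p.1 • a + ψ.toFun p.2) - l p.1 • a)
      (Ψ := fun p => ψ.invFun (φ.invFun (l p.1 • a + p.2) - l p.1 • a)) ?_ ?_ ?_ ?_ ?_ ?_ ?_ ?_
    · exact (φ.smooth.comp (hla.add (ψ.smooth.comp contDiff_snd))).sub hla
    · exact ψ.smooth_inv.comp ((φ.smooth_inv.comp (hla.add contDiff_snd)).sub hla)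
    · intro t x
      simp only
      rw [add_sub_cancel, φ.left_inv, add_sub_cancel_left, ψ.left_inv]
    · intro t x
      simp only
      rw [ψ.right_inv, add_sub_cancel, φ.right_inv, add_sub_cancel_left]
    · intro t x v w
      have h2 := (comp (shift φ (l t • a)) ψ).symplectic x v w
      have h3 : (comp (shift φ (l t • a)) ψ).toFun =
          fun x => φ.toFun (l t • a + ψ.toFun x) - l t • a := by
        funext x
        exact shift_apply φ (l t • a) (ψ.toFun x)
      rw [h3] at h2
      exact h2
    · intro t x hx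
      obtain ⟨b1, b2, b3, b4⟩ := hbound t x hx
      simp only
      rw [b3, b1]
    · intro x
      simp [comp, h0]
    · intro x
      simp only [h1, one_smul]
      exact shift_apply φ a (ψ.toFun x)
  · refine joined_of_family (K := Metric.closedBall 0 (R + ‖a‖)) (isCompact_closedBall _ _)
      (Φ := fun p => ψ.toFun (φ.toFun (l p.1 • a + p.2) - l p.1 • a))
      (Ψ := fun p => φ.invFun (l p.1 • a + ψ.invFun p.2) - l p.1 • a) ?_ ?_ ?_ ?_ ?_ ?_ ?_ ?_
    · exact ψ.smooth.comp ((φ.smooth.comp (hla.add contDiff_snd)).sub hla)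
    · exact (φ.smooth_inv.comp (hla.add (ψ.smooth_inv.comp contDiff_snd))).sub hla
    · intro t x
      simp only
      rw [ψ.left_inv, add_sub_cancel, φ.left_inv, add_sub_cancel_left]
    · intro t x
      simp only
      rw [add_sub_cancel, φ.right_inv, add_sub_cancel_left, ψ.right_inv]
    · intro t x v w
      have h2 := (comp ψ (shift φ (l t • a))).symplectic x v w
      have h3 : (comp ψ (shift φ (l t • a))).toFun =
          fun x => ψ.toFun (φ.toFun (l t • a + x) - l t • a) := by
        funext x
        change ψ.toFun ((shift φ (l t • a)).toFun x) = _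
        rw [shift_apply]
      rw [h3] at h2
      exact h2
    · intro t x hx
      obtain ⟨b1, b2, b3, b4⟩ := hbound t x hx
      simp only
      rw [b1, b3]
    · intro x
      simp [comp, h0]
    · intro x
      simp only [h1, one_smul]
      change ψ.toFun ((shift φ a).toFun x) = _
      rw [shift_apply]

/-- Translates with disjoint supports commute. -/
lemma exists_commuting (hn : n ≠ 0) (φ ψ : SympCt n) :
    ∃ a : Phase n, comp (shift φ a) ψ = comp ψ (shift φ a) := by
  obtain ⟨K, hK, hφ⟩ := φ.compact_support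
  obtain ⟨L, hL, hψ⟩ := ψ.compact_support
  obtain ⟨R, hR⟩ := (hK.union hL).isBounded.subset_closedBall (0 : Phase n)
  have : Nontrivial (Phase n) := by
    have : Nonempty (Fin n) := ⟨⟨0, Nat.pos_of_ne_zero hn⟩⟩
    infer_instance
  obtain ⟨a, ha⟩ := exists_norm_eq (Phase n) (c := 2 * |R| + 1) (by positivity)
  refine ⟨a, SympCt.eq_of fun x => ?_⟩
  change (shift φ a).toFun (ψ.toFun x) = ψ.toFun ((shift φ a).toFun x)
  rw [shift_apply, shift_apply]
  -- images of supports
  have hψL : ∀ x, x ∈ L → ψ.toFun x ∈ L ∨ ψ.toFun x = x := by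
    intro x hx
    by_cases h : ψ.toFun x ∈ L
    · exact Or.inl h
    · right
      have h1 := hψ _ h
      have h2 := congrArg ψ.invFun h1
      rwa [ψ.left_inv, ψ.left_inv] at h2
  have hφK : ∀ x, x ∈ K → φ.toFun x ∈ K ∨ φ.toFun x = x := by
    intro x hx
    by_cases h : φ.toFun x ∈ K
    · exact Or.inl h
    · right
      have h1 := hφ _ h
      have h2 := congrArg φ.invFun h1
      rwa [φ.left_inv, φ.left_inv] at h2
  -- disjointness
  have hdisj : ∀ y, y ∈ L → a + y ∉ K := by
    intro y hy hy2
    have h1 := hR (Or.inr hy)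
    have h2 := hR (Or.inl hy2)
    rw [mem_closedBall_zero_iff] at h1 h2
    have h3 : ‖a‖ ≤ ‖a + y‖ + ‖y‖ := by
      calc ‖a‖ = ‖(a + y) - y‖ := by rw [add_sub_cancel_right]
        _ ≤ _ := norm_sub_le _ _
    have h4 := le_abs_self R
    rw [ha] at h3
    linarith
  by_cases hx : x ∈ L
  · have h1 : φ.toFun (a + ψ.toFun x) = a + ψ.toFun x := by
      rcases hψL x hx with h | h
      · exact hφ _ (hdisj _ h)
      · rw [h]; exact hφ _ (hdisj _ hx)
    rw [h1, hφ _ (hdisj _ hx), add_sub_cancel_left, add_sub_cancel_left]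
  · rw [hψ x hx]
    by_cases hx2 : a + x ∈ K
    · rcases hφK _ hx2 with h | h
      · have h3 : φ.toFun (a + x) - a ∉ L := fun h4 => hdisj _ h4 (by
          rw [add_sub_cancel]; exact h)
        rw [hψ _ h3]
      · rw [h, add_sub_cancel_left, hψ x hx]
    · rw [hφ _ hx2, add_sub_cancel_left, hψ x hx]

/-- For compactly supported symplectomorphisms `φ`, `ψ` of `ℝ^{2n}` the compositions `φ ∘ ψ` and
`ψ ∘ φ` lie in the same path component of the group of compactly supported symplectomorphisms. -/
theorem result (n : ℕ) (φ ψ : SympCt n) : Joined (comp φ ψ) (comp ψ φ) := by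
  rcases eq_or_ne n 0 with rfl | hn
  · have : comp φ ψ = comp ψ φ := SympCt.eq_of fun x => Subsingleton.elim _ _
    rw [this]
  · obtain ⟨a, ha⟩ := exists_commuting hn φ ψ
    obtain ⟨h1, h2⟩ := joined_shift_comp φ ψ a
    exact h1.trans (ha ▸ h2.symm)

end Pool.Agent.Results.MP_ec5dc5_gt.AbelianComponents
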