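import Pool.Agent.R776.SympPaths

/-!
# MP_ec5dc5_gt, Q1 (c): countability of `π₀` and a finiteness theorem

Let `G = SympCt n` be the group of compactly supported symplectomorphisms of the standard `ℝ^{2n}`
with the direct limit of the `C^∞` topologies. The complexity of `φ ∈ G` is bounded by `r L` when
`φ` is supported in a ball of radius `r` and its derivative has Lipschitz constant `L`; this number
is invariant under conjugation by homotheties. The theorem: for every `C` only finitely many path
components of `G` contain an element of complexity at most `C`. Consequently `π₀(G)` is countable,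
which answers question (c).
-/

set_option autoImplicit false

open Set Filter Topology
open scoped ContDiff NNReal

noncomputable section

namespace Pool.Agent.Results.MP_ec5dc5_gt.FiniteComplexity

open Pool.Agent.R776

variable {n : ℕ}

/-- The path components of the group of compactly supported symplectomorphisms which contain a
symplectomorphism `φ` supported in a ball of radius `r` whose derivative is Lipschitz with constant
`L`, where `r L ≤ C`. -/
def componentsOfComplexity (n : ℕ) (C : ℝ) : Set (ZerothHomotopy (SympCt n)) :=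
  {q | ∃ φ : SympCt n, q = Quotient.mk (pathSetoid (SympCt n)) φ ∧
    ∃ (a : Phase n) (r L : ℝ≥0), (∀ x, x ∉ Metric.closedBall a r → φ.toFun x = x) ∧
      LipschitzWith L (fderiv ℝ φ.toFun) ∧ (r : ℝ) * L ≤ C}

/-! ### Auxiliary results -/

lemma norm_le_of_omega {w : Phase n} {c : ℝ} (hc : 0 ≤ c)
    (h : ∀ e : Phase n, ‖e‖ ≤ 1 → |omegaStd w e| ≤ c) : ‖w‖ ≤ c := by
  rw [prod_norm_le_iff]
  constructor
  · rw [pi_norm_le_iff_of_nonneg hc]
    intro i
    have h1 := h (0, Pi.single i 1) (by
      rw [Prod.norm_def]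
      simp only [norm_zero]
      refine max_le zero_le_one ?_
      rw [pi_norm_le_iff_of_nonneg zero_le_one]
      intro j
      by_cases hj : j = i
      · subst hj; simp
      · simp [hj])
    have h2 : omegaStd w (0, Pi.single i 1) = w.1 i := by
      simp [omegaStd, Pi.single_apply]
    rw [h2] at h1
    exact h1
  · rw [pi_norm_le_iff_of_nonneg hc]
    intro i
    have h1 := h (Pi.single i 1, 0) (by
      rw [Prod.norm_def]
      simp only [norm_zero]
      refine max_le ?_ zero_le_one
      rw [pi_norm_le_iff_of_nonneg zero_le_one]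
      intro j
      by_cases hj : j = i
      · subst hj; simp
      · simp [hj])
    have h2 : omegaStd w (Pi.single i 1, 0) = - w.2 i := by
      simp [omegaStd, Pi.single_apply]
    rw [h2, abs_neg] at h1
    exact h1
where
  prod_norm_le_iff : ‖w‖ ≤ c ↔ ‖w.1‖ ≤ c ∧ ‖w.2‖ ≤ c := by
    rw [Prod.norm_def]; exact max_le_iff

lemma abs_omega_le (v w : Phase n) : |omegaStd v w| ≤ 2 * n * (‖v‖ * ‖w‖) := by
  have h1 : ∀ i, |v.1 i * w.2 i - v.2 i * w.1 i| ≤ 2 * (‖v‖ * ‖w‖) := by
    intro i
    have a1 : |v.1 i| ≤ ‖v‖ := (norm_le_pi_norm v.1 i).trans (norm_fst_le v)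
    have a2 : |v.2 i| ≤ ‖v‖ := (norm_le_pi_norm v.2 i).trans (norm_snd_le v)
    have b1 : |w.1 i| ≤ ‖w‖ := (norm_le_pi_norm w.1 i).trans (norm_fst_le w)
    have b2 : |w.2 i| ≤ ‖w‖ := (norm_le_pi_norm w.2 i).trans (norm_snd_le w)
    calc |v.1 i * w.2 i - v.2 i * w.1 i| ≤ |v.1 i * w.2 i| + |v.2 i * w.1 i| := abs_sub _ _
      _ = |v.1 i| * |w.2 i| + |v.2 i| * |w.1 i| := by rw [abs_mul, abs_mul]
      _ ≤ ‖v‖ * ‖w‖ + ‖v‖ * ‖w‖ :=
          add_le_add (mul_le_mul a1 b2 (abs_nonneg _) (norm_nonneg _))
            (mul_le_mul a2 b1 (abs_nonneg _) (norm_nonneg _))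
      _ = 2 * (‖v‖ * ‖w‖) := by ring
  calc |omegaStd v w| ≤ ∑ i : Fin n, |v.1 i * w.2 i - v.2 i * w.1 i| :=
        Finset.abs_sum_le_sum_abs _ _
    _ ≤ ∑ _i : Fin n, 2 * (‖v‖ * ‖w‖) := Finset.sum_le_sum fun i _ => h1 i
    _ = 2 * n * (‖v‖ * ‖w‖) := by simp; ring

/-- The derivative of the inverse is bounded by the derivative. -/
lemma norm_fderiv_inv_le (φ : SympCt n) {c : ℝ} (hc : 0 ≤ c)
    (h : ∀ x, ‖fderiv ℝ φ.toFun x‖ ≤ c) (y : Phase n) :
    ‖fderiv ℝ φ.invFun y‖ ≤ 2 * n * c := by
  refine ContinuousLinearMap.opNorm_le_bound _ (by positivity) fun v => ?_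
  have hd : (fderiv ℝ φ.toFun (φ.invFun y)).comp (fderiv ℝ φ.invFun y) =
      ContinuousLinearMap.id ℝ (Phase n) := by
    have h4 : HasFDerivAt (fun y => φ.toFun (φ.invFun y))
        ((fderiv ℝ φ.toFun (φ.invFun y)).comp (fderiv ℝ φ.invFun y)) y :=
      ((φ.smooth.differentiable (by simp)).differentiableAt.hasFDerivAt).comp y
        ((φ.smooth_inv.differentiable (by simp)).differentiableAt.hasFDerivAt)
    have h5 : (fun y => φ.toFun (φ.invFun y)) = id := funext φ.right_inv
    rw [h5] at h4
    exact h4.unique (hasFDerivAt_id y)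
  refine norm_le_of_omega (by positivity) fun e he => ?_
  rw [← φ.symplectic (φ.invFun y)]
  have h1 : fderiv ℝ φ.toFun (φ.invFun y) (fderiv ℝ φ.invFun y v) = v := DFunLike.congr_fun hd v
  rw [h1]
  refine (abs_omega_le _ _).trans ?_
  have h2 : ‖fderiv ℝ φ.toFun (φ.invFun y) e‖ ≤ c := by
    refine (ContinuousLinearMap.le_opNorm _ _).trans ?_
    calc _ ≤ c * 1 := mul_le_mul (h _) he (norm_nonneg _) hc
      _ = c := mul_one c
  calc 2 * (n : ℝ) * (‖v‖ * ‖fderiv ℝ φ.toFun (φ.invFun y) e‖) ≤ 2 * n * (‖v‖ * c) := by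
        gcongr
    _ = 2 * n * c * ‖v‖ := by ring

/-- The components which contain an element supported in the unit ball with `M`-Lipschitz
derivative are finite in number. -/
lemma finite_unit (M : ℝ≥0) :
    {q : ZerothHomotopy (SympCt n) | ∃ φ : SympCt n,
      q = Quotient.mk (pathSetoid (SympCt n)) φ ∧
      (∀ x, x ∉ Metric.closedBall (0 : Phase n) 1 → φ.toFun x = x) ∧
      LipschitzWith M (fderiv ℝ φ.toFun)}.Finite := by
  classical
  set K : Set (Phase n) := Metric.closedBall (0 : Phase n) 1 with hKdef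
  have hK : IsCompact K := isCompact_closedBall _ _
  have : CompactSpace K := isCompact_iff_compactSpace.1 hK
  let S : Set (SympCt n) := {φ | (∀ x, x ∉ K → φ.toFun x = x) ∧ LipschitzWith M (fderiv ℝ φ.toFun)}
  -- bounds
  have hb : ∀ φ ∈ S, ∀ x ∈ K,
      ‖fderiv ℝ φ.toFun x - ContinuousLinearMap.id ℝ (Phase n)‖ ≤ 3 * M := by
    intro φ hφ x hx
    rcases subsingleton_or_nontrivial (Phase n) with h | h
    · have : fderiv ℝ φ.toFun x - ContinuousLinearMap.id ℝ (Phase n) = 0 :=
        ContinuousLinearMap.ext fun v => Subsingleton.elim _ _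
      rw [this, norm_zero]
      positivity
    · obtain ⟨y, hy⟩ := exists_norm_eq (Phase n) (c := 2) (by norm_num)
      have h1 : fderiv ℝ φ.toFun y = ContinuousLinearMap.id ℝ (Phase n) := by
        have h2 : φ.toFun =ᶠ[𝓝 y] id := by
          have h3 : y ∈ Kᶜ := by
            intro h4
            rw [hKdef, mem_closedBall_zero_iff, hy] at h4
            norm_num at h4
          filter_upwards [hK.isClosed.isOpen_compl.mem_nhds h3] with z hz using hφ.1 z hz
        rw [h2.fderiv_eq, fderiv_id]
      rw [← h1]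
      have h2 := hφ.2.dist_le_mul x y
      rw [dist_eq_norm] at h2
      have h3 : dist x y ≤ 3 := by
        rw [hKdef, mem_closedBall_zero_iff] at hx
        calc dist x y = ‖x - y‖ := dist_eq_norm _ _
          _ ≤ ‖x‖ + ‖y‖ := norm_sub_le _ _
          _ ≤ 3 := by rw [hy]; linarith
      calc _ ≤ (M : ℝ) * dist x y := h2
        _ ≤ M * 3 := mul_le_mul_of_nonneg_left h3 M.2
        _ = 3 * M := mul_comm _ _
  have hb2 : ∀ φ ∈ S, ∀ x, ‖fderiv ℝ φ.toFun x‖ ≤ 1 + 3 * M := by
    intro φ hφ x
    have h0 : ‖ContinuousLinearMap.id ℝ (Phase n)‖ ≤ 1 := ContinuousLinearMap.norm_id_le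
    by_cases hx : x ∈ K
    · have h1 := hb φ hφ x hx
      calc ‖fderiv ℝ φ.toFun x‖ = ‖ContinuousLinearMap.id ℝ (Phase n) +
            (fderiv ℝ φ.toFun x - ContinuousLinearMap.id ℝ (Phase n))‖ := by
            rw [add_sub_cancel]
        _ ≤ _ := norm_add_le _ _
        _ ≤ 1 + 3 * M := add_le_add h0 h1
    · have h2 : φ.toFun =ᶠ[𝓝 x] id := by
        filter_upwards [hK.isClosed.isOpen_compl.mem_nhds hx] with z hz using hφ.1 z hz
      rw [h2.fderiv_eq, fderiv_id]
      have : (0 : ℝ) ≤ 3 * M := by positivity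
      linarith
  set D : ℝ := 2 * n * (1 + 3 * M) + 1 with hD
  have hDpos : 0 < D := by positivity
  -- the family of derivatives
  let F : SympCt n → BoundedContinuousFunction K (Phase n →L[ℝ] Phase n) := fun φ =>
    BoundedContinuousFunction.mkOfCompact
      ⟨fun x : K => fderiv ℝ φ.toFun x, (φ.smooth.continuous_fderiv (by simp)).comp
        continuous_subtype_val⟩
  have hF : ∀ φ (x : K), F φ x = fderiv ℝ φ.toFun x := fun φ x => rfl
  have hcomp : IsCompact (closure (F '' S)) := by
    refine BoundedContinuousFunction.arzela_ascoli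
      (Metric.closedBall (0 : Phase n →L[ℝ] Phase n) (1 + 3 * M)) (isCompact_closedBall _ _)
      (F '' S) ?_ ?_
    · rintro _ x ⟨φ, hφ, rfl⟩
      rw [mem_closedBall_zero_iff, hF]
      exact hb2 φ hφ x
    · refine (LipschitzWith.uniformEquicontinuous _ M ?_).equicontinuous
      rintro ⟨_, ⟨φ, hφ, rfl⟩⟩
      exact hφ.2.comp (LipschitzWith.subtype_val K) |>.weaken (by simp)
  have htb : TotallyBounded (F '' S) := hcomp.totallyBounded.subset subset_closure
  rw [Metric.totallyBounded_iff] at htb
  obtain ⟨t, ht, hcov⟩ := htb (1 / (8 * D)) (by positivity)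
  -- choose representatives
  let g : BoundedContinuousFunction K (Phase n →L[ℝ] Phase n) → ZerothHomotopy (SympCt n) :=
    fun y => if h : ∃ φ ∈ S, F φ ∈ Metric.ball y (1 / (8 * D)) then
      Quotient.mk (pathSetoid (SympCt n)) h.choose else
      Quotient.mk (pathSetoid (SympCt n)) (SympCt.idMap n)
  refine (ht.image g).subset ?_
  rintro q ⟨φ, rfl, hφ1, hφ2⟩
  have hφS : φ ∈ S := ⟨hφ1, hφ2⟩
  obtain ⟨y, hy, hφy⟩ := mem_iUnion₂.1 (hcov ⟨φ, hφS, rfl⟩)
  refine ⟨y, hy, ?_⟩
  have hex : ∃ φ ∈ S, F φ ∈ Metric.ball y (1 / (8 * D)) := ⟨φ, hφS, hφy⟩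
  have hg : g y = Quotient.mk (pathSetoid (SympCt n)) hex.choose := dif_pos hex
  rw [hg]
  have hψS := hex.choose_spec.1
  have hψy := hex.choose_spec.2
  set ψ := hex.choose with hψ
  refine Quotient.sound ?_
  have hdist : dist (F φ) (F ψ) < 1 / (4 * D) := by
    rw [Metric.mem_ball] at hφy hψy
    have h1 := dist_triangle_right (F φ) (F ψ) y
    have h2 : 1 / (8 * D) + 1 / (8 * D) = 1 / (4 * D) := by field_simp; norm_num
    linarith
  refine joined_of_close hK (⟨ψ, hψS.1⟩ : Supported K) ⟨φ, hφS.1⟩ hDpos ?_ ?_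
  · intro x _
    have h1 := norm_fderiv_inv_le ψ (by positivity) (hb2 ψ hψS) x
    change ‖fderiv ℝ ψ.invFun x‖ ≤ D
    linarith
  · intro x hx
    have h1 := (BoundedContinuousFunction.dist_coe_le_dist (f := F φ) (g := F ψ) ⟨x, hx⟩)
    rw [hF, hF, dist_eq_norm] at h1
    exact h1.trans hdist.le

/-- **Finiteness theorem.** For every `C` only finitely many path components of the group of
compactly supported symplectomorphisms of `ℝ^{2n}` contain an element of complexity at most `C`;
in particular there are only countably many path components. -/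
theorem result (n : ℕ) :
    (∀ C : ℝ, (componentsOfComplexity n C).Finite) ∧ Countable (ZerothHomotopy (SympCt n)) := by
  have hfin : ∀ C : ℝ, (componentsOfComplexity n C).Finite := by
    intro C
    refine (finite_unit (n := n) (Real.toNNReal (C + 1))).subset ?_
    rintro q ⟨φ, rfl, a, r, L, hsupp, hLip, hC⟩
    -- a slightly larger radius
    set r' : ℝ := r + 1 / (L + 1) with hr'
    have hL0 : (0 : ℝ) ≤ L := L.2
    have hr0 : (0 : ℝ) ≤ r := r.2
    have hr'pos : 0 < r' := by positivity
    have hr'C : r' * L ≤ C + 1 := by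
      have h1 : 1 / ((L : ℝ) + 1) * L ≤ 1 := by
        rw [div_mul_eq_mul_div, one_mul, div_le_one (by positivity)]
        linarith
      rw [hr', add_mul]
      linarith
    refine ⟨φ.conj a r' hr'pos.ne', Quotient.sound (joined_conj φ a hr'pos), ?_, ?_⟩
    · intro x hx
      rw [mem_closedBall_zero_iff, not_le] at hx
      have h1 : a + r' • x ∉ Metric.closedBall a r := by
        rw [Metric.mem_closedBall, dist_eq_norm, add_sub_cancel_left, norm_smul,
          Real.norm_of_nonneg hr'pos.le, not_le]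
        have h2 : (r : ℝ) < r' := by
          have : 0 < 1 / ((L : ℝ) + 1) := by positivity
          linarith
        nlinarith
      change r'⁻¹ • (φ.toFun (a + r' • x) - a) = x
      rw [hsupp _ h1, add_sub_cancel_left, smul_smul, inv_mul_cancel₀ hr'pos.ne', one_smul]
    · have h1 : fderiv ℝ (φ.conj a r' hr'pos.ne').toFun = fun x => fderiv ℝ φ.toFun (a + r' • x) :=
        funext fun x => (conj_symplectic φ.toFun φ.smooth φ.symplectic a hr'pos.ne' x).fderiv
      rw [h1]
      refine LipschitzWith.of_dist_le_mul fun x y => ?_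
      have h2 := hLip.dist_le_mul (a + r' • x) (a + r' • y)
      rw [dist_add_left, dist_smul₀, Real.norm_of_nonneg hr'pos.le] at h2
      refine h2.trans ?_
      rw [← mul_assoc]
      refine mul_le_mul_of_nonneg_right ?_ dist_nonneg
      rw [mul_comm]
      exact hr'C.trans (Real.le_coe_toNNReal _)
  refine ⟨hfin, ?_⟩
  have h2 : (univ : Set (ZerothHomotopy (SympCt n))) ⊆ ⋃ k : ℕ, componentsOfComplexity n k := by
    intro q _
    induction q using Quotient.inductionOn with
    | h φ =>
      obtain ⟨K, hK, hφ⟩ := φ.compact_support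
      obtain ⟨R, hR⟩ := hK.isBounded.subset_closedBall (0 : Phase n)
      obtain ⟨k, hk⟩ := exists_nat_ge R
      have hsupp : ∀ x, x ∉ Metric.closedBall (0 : Phase n) k → φ.toFun x = x := fun x hx =>
        hφ x fun h => hx (Metric.closedBall_subset_closedBall hk (hR h))
      -- the derivative is Lipschitz
      have hu : ContDiff ℝ ∞ (fun x => fderiv ℝ φ.toFun x - ContinuousLinearMap.id ℝ (Phase n)) :=
        (φ.smooth.fderiv_right (m := ∞) (by simp)).sub contDiff_const
      have hcs : HasCompactSupport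
          (fun x => fderiv ℝ φ.toFun x - ContinuousLinearMap.id ℝ (Phase n)) := by
        refine HasCompactSupport.intro (isCompact_closedBall (0 : Phase n) k) fun x hx => ?_
        have h2 : φ.toFun =ᶠ[𝓝 x] id := by
          filter_upwards [Metric.isClosed_closedBall.isOpen_compl.mem_nhds hx] with z hz
            using hsupp z hz
        rw [h2.fderiv_eq, fderiv_id, sub_self]
      obtain ⟨L, hL⟩ := (hu.of_le (m := 1) (by exact_mod_cast le_top)).lipschitzWith_of_hasCompactSupport hcs
        (by norm_num)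
      have hLip : LipschitzWith L (fderiv ℝ φ.toFun) := by
        refine LipschitzWith.of_dist_le_mul fun x y => ?_
        have h3 := hL.dist_le_mul x y
        rwa [dist_sub_right] at h3
      obtain ⟨m, hm⟩ := exists_nat_ge ((k : ℝ) * L)
      refine mem_iUnion.2 ⟨m, φ, rfl, 0, k, L, ?_, hLip, ?_⟩
      · exact_mod_cast hsupp
      · exact_mod_cast hm
  have h3 : (univ : Set (ZerothHomotopy (SympCt n))).Countable :=
    (countable_iUnion fun k : ℕ => (hfin (k : ℝ)).countable).mono h2
  exact countable_univ_iff.1 h3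

end Pool.Agent.Results.MP_ec5dc5_gt.FiniteComplexity
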