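import Pool.Agent.R776.SympPaths
import Pool.Agent.R776.CayleyIso

/-!
# MP_ec5dc5_gt, Q1 (b): symplectomorphisms joined by a straight line of immersions are
symplectically isotopic

Let `φ, ψ` be compactly supported symplectomorphisms of the standard `ℝ^{2n}`. If all the maps
`(1 - t) φ + t ψ`, `0 ≤ t ≤ 1`, are immersions, then `φ` and `ψ` lie in the same path component of
the group of compactly supported symplectomorphisms. In particular (`φ = id`) a compactly supported
symplectomorphism whose derivative has no negative real eigenvalue at any point lies in the identity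
component. There is no smallness assumption.
-/

set_option autoImplicit false

open Set Filter Topology
open scoped ContDiff NNReal

noncomputable section

namespace Pool.Agent.Results.MP_ec5dc5_gt.StraightLineIsotopy

open Pool.Agent.R776

variable {n : ℕ}

/-- If the maps `(1 - t) φ + t ψ`, `0 ≤ t ≤ 1`, are immersions (their derivative is injective at
every point), then the compactly supported symplectomorphisms `φ` and `ψ` are joined by a path of
compactly supported symplectomorphisms. -/
theorem result (n : ℕ) (φ ψ : SympCt n)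
    (h : ∀ t ∈ Icc (0 : ℝ) 1, ∀ x : Phase n,
      Function.Injective (fderiv ℝ (fun y => (1 - t) • φ.toFun y + t • ψ.toFun y) x)) :
    Joined φ ψ := by
  obtain ⟨K₁, hK₁, hφ⟩ := φ.compact_support
  obtain ⟨K₂, hK₂, hψ⟩ := ψ.compact_support
  -- the quotient `η = ψ ∘ φ⁻¹`
  set η : Phase n → Phase n := fun y => ψ.toFun (φ.invFun y) with hη
  have hηs : ContDiff ℝ ∞ η := ψ.smooth.comp φ.smooth_inv
  have hinv_out : ∀ y, y ∉ K₁ → φ.invFun y = y := fun y hy => by
    have h4 := hφ y hy
    conv_lhs => rw [← h4]
    exact φ.left_inv y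
  have hη_out : ∀ y, y ∉ K₁ ∪ K₂ → η y = y := fun y hy => by
    simp only [hη]
    rw [hinv_out y fun hc => hy (Or.inl hc), hψ y fun hc => hy (Or.inr hc)]
  have hdη : ∀ y, HasFDerivAt η ((fderiv ℝ ψ.toFun (φ.invFun y)).comp
      (fderiv ℝ φ.invFun y)) y := fun y =>
    ((ψ.smooth.differentiable (by simp)).differentiableAt.hasFDerivAt).comp y
      ((φ.smooth_inv.differentiable (by simp)).differentiableAt.hasFDerivAt)
  have hdφ : ∀ y, (fderiv ℝ φ.toFun (φ.invFun y)).comp (fderiv ℝ φ.invFun y) =
      ContinuousLinearMap.id ℝ (Phase n) := fun y => by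
    have h4 : HasFDerivAt (fun y => φ.toFun (φ.invFun y))
        ((fderiv ℝ φ.toFun (φ.invFun y)).comp (fderiv ℝ φ.invFun y)) y :=
      ((φ.smooth.differentiable (by simp)).differentiableAt.hasFDerivAt).comp y
        ((φ.smooth_inv.differentiable (by simp)).differentiableAt.hasFDerivAt)
    have h5 : (fun y => φ.toFun (φ.invFun y)) = id := funext φ.right_inv
    rw [h5] at h4
    exact h4.unique (hasFDerivAt_id y)
  have hωη : ∀ x v w, omegaL n (fderiv ℝ η x v) (fderiv ℝ η x w) = omegaL n v w := by
    intro y v w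
    rw [(hdη y).fderiv]
    simp only [omegaL_apply, ContinuousLinearMap.comp_apply]
    rw [ψ.symplectic]
    have h4 : ∀ v, fderiv ℝ φ.toFun (φ.invFun y) (fderiv ℝ φ.invFun y v) = v :=
      fun v => DFunLike.congr_fun (hdφ y) v
    rw [← φ.symplectic (φ.invFun y), h4, h4]
  have hneg : ∀ x, ∀ s : ℝ, 0 ≤ s → ∀ v, fderiv ℝ η x v + s • v = 0 → v = 0 := by
    intro y s hs v hv
    set x := φ.invFun y with hx
    -- `v` is the image of `w` under the derivative of `φ`
    set w := fderiv ℝ φ.invFun y v with hw
    have h1 : fderiv ℝ φ.toFun x w = v := DFunLike.congr_fun (hdφ y) v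
    have h2 : fderiv ℝ η y v = fderiv ℝ ψ.toFun x w := by
      rw [(hdη y).fderiv]; rfl
    have hpos : 0 < 1 + s := by linarith
    have h3 : fderiv ℝ (fun y => (1 - 1 / (1 + s)) • φ.toFun y + (1 / (1 + s)) • ψ.toFun y) x w
        = 0 := by
      have h4 : HasFDerivAt
          (fun y => (1 - 1 / (1 + s)) • φ.toFun y + (1 / (1 + s)) • ψ.toFun y)
          ((1 - 1 / (1 + s)) • fderiv ℝ φ.toFun x + (1 / (1 + s)) • fderiv ℝ ψ.toFun x) x :=
        (((φ.smooth.differentiable (by simp)).differentiableAt.hasFDerivAt (x := x)).const_smul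
          (1 - 1 / (1 + s))).add
          (((ψ.smooth.differentiable (by simp)).differentiableAt.hasFDerivAt (x := x)).const_smul
            (1 / (1 + s)))
      rw [h4.fderiv]
      change (1 - 1 / (1 + s)) • fderiv ℝ φ.toFun x w + (1 / (1 + s)) • fderiv ℝ ψ.toFun x w = 0
      rw [h1, ← h2]
      have h5 : (1 - 1 / (1 + s)) = (1 / (1 + s)) * s := by field_simp; ring
      rw [h5, mul_smul, ← smul_add, add_comm (s • v), hv, smul_zero]
    have h6 : w = 0 := by
      refine h (1 / (1 + s)) ⟨by positivity, ?_⟩ x (h3.trans (map_zero _).symm)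
      rw [div_le_one hpos]
      linarith
    rw [← h1, h6, map_zero]
  obtain ⟨Φ, Ψ, a1, a2, a3, a4, a5, a6, a7, a8⟩ :=
    cayley_isotopy hηs (omegaL n) hωη (hK₁.union hK₂) hη_out hneg
  refine joined_of_family (hK₁.union hK₂) (Φ := fun p => Φ (p.1, φ.toFun p.2))
    (Ψ := fun p => φ.invFun (Ψ p)) (a1.comp (contDiff_fst.prodMk (φ.smooth.comp contDiff_snd)))
    (φ.smooth_inv.comp a2) ?_ ?_ ?_ ?_ ?_ ?_
  · intro t x
    simp only
    rw [a3, φ.left_inv]
  · intro t x
    simp only
    rw [φ.right_inv, a4]
  · intro t x v w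
    have h4 : HasFDerivAt (fun x => Φ (t, φ.toFun x))
        ((fderiv ℝ (fun y => Φ (t, y)) (φ.toFun x)).comp (fderiv ℝ φ.toFun x)) x :=
      HasFDerivAt.comp (g := fun y => Φ (t, y)) x
        (((a1.comp (contDiff_const.prodMk contDiff_id)).differentiable
          (by simp)).differentiableAt.hasFDerivAt)
        ((φ.smooth.differentiable (by simp)).differentiableAt.hasFDerivAt)
    simp only
    rw [h4.fderiv, ContinuousLinearMap.comp_apply, ContinuousLinearMap.comp_apply,
      ← omegaL_apply, a8, omegaL_apply, φ.symplectic]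
  · intro t x hx
    simp only
    rw [hφ x fun hc => hx (Or.inl hc), a7 t x hx]
  · intro x
    simp only
    rw [a5]
  · intro x
    simp only
    rw [a6]
    simp only [hη]
    rw [φ.left_inv]

end Pool.Agent.Results.MP_ec5dc5_gt.StraightLineIsotopy
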